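import Mathlib

set_option autoImplicit false

/-!
The least prime with digit sum `86` is `6999999989`; it ends in `89`. So the assertions (b) and (c) of
the question are false.
-/

namespace Pool.Agent.Results.MP_70678e_nt.AssertionsBAndCFail

/-- The sum of the decimal digits of `n`. -/
def s (n : ℕ) : ℕ := (Nat.digits 10 n).sum

/-- `p = ρ k`: `p` is the smallest prime with digit sum `k`. -/
def IsRho (k p : ℕ) : Prop :=
  p.Prime ∧ s p = k ∧ ∀ q : ℕ, q.Prime → s q = k → p ≤ q

lemma s_step (n : ℕ) : s n = n % 10 + s (n / 10) := by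
  unfold s
  rcases Nat.eq_zero_or_pos n with h | h
  · subst h
    simp
  · rw [Nat.digits_def' (by norm_num) h]
    simp

/-- all `n < 10 ^ m` with digit sum `t` -/
def cands : ℕ → ℕ → List ℕ
  | 0, t => if t = 0 then [0] else []
  | m + 1, t => (List.range 10).flatMap fun d =>
      if d ≤ t ∧ t ≤ 9 * m + d then (cands m (t - d)).map fun x => x * 10 + d else []

lemma s_le (m : ℕ) : ∀ n : ℕ, n < 10 ^ m → s n ≤ 9 * m := by
  induction m with
  | zero =>
    intro n hn
    have : n = 0 := by simpa using hn
    subst this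
    simp [s]
  | succ m ih =>
    intro n hn
    rw [s_step]
    have h1 : n / 10 < 10 ^ m := by
      rw [Nat.div_lt_iff_lt_mul (by norm_num)]
      rw [pow_succ] at hn
      exact hn
    have h2 := ih _ h1
    omega

lemma mem_cands (m : ℕ) : ∀ t n : ℕ, n < 10 ^ m → s n = t → n ∈ cands m t := by
  induction m with
  | zero =>
    intro t n hn hs
    have : n = 0 := by simpa using hn
    subst this
    have : t = 0 := by rw [← hs]; simp [s]
    subst this
    simp [cands]
  | succ m ih =>
    intro t n hn hs
    have h1 : n / 10 < 10 ^ m := by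
      rw [Nat.div_lt_iff_lt_mul (by norm_num)]
      rw [pow_succ] at hn
      exact hn
    have h2 := s_le m _ h1
    rw [s_step] at hs
    rw [cands, List.mem_flatMap]
    refine ⟨n % 10, List.mem_range.mpr (Nat.mod_lt _ (by norm_num)), ?_⟩
    rw [if_pos ⟨by omega, by omega⟩, List.mem_map]
    refine ⟨n / 10, ih _ _ h1 (by omega), by omega⟩

/-- divisors used for the composite candidates -/
def divs : List ℕ := [7, 6089, 827, 19, 61, 31, 3011]

lemma check : ∀ n ∈ cands 10 86, n < 6999999989 → ∃ d ∈ divs, n % d = 0 := by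
  decide +kernel

/-- `a ^ e % m` by repeated squaring -/
def pm (a m : ℕ) : ℕ → ℕ → ℕ
  | 0, _ => 1 % m
  | f + 1, e =>
    if e % 2 = 0 then pm a m f (e / 2) * pm a m f (e / 2) % m
    else pm a m f (e / 2) * pm a m f (e / 2) % m * a % m

lemma pm_eq (a m : ℕ) : ∀ f e : ℕ, e < 2 ^ f → pm a m f e = a ^ e % m := by
  intro f
  induction f with
  | zero =>
    intro e he
    have : e = 0 := by simpa using he
    subst this
    simp [pm]
  | succ f ih =>
    intro e he
    have h1 : e / 2 < 2 ^ f := by
      rw [Nat.div_lt_iff_lt_mul (by norm_num)]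
      rw [pow_succ] at he
      exact he
    rw [pm, ih _ h1]
    have h2 := Nat.div_add_mod e 2
    by_cases h : e % 2 = 0
    · rw [if_pos h, ← Nat.mul_mod, ← pow_add]
      congr 2
      omega
    · rw [if_neg h]
      have h3 : e = e / 2 + e / 2 + 1 := by omega
      conv_rhs => rw [h3, pow_succ, pow_add]
      rw [← Nat.mul_mod, Nat.mod_mul_mod]

lemma zmod_pow (e : ℕ) (he : e < 2 ^ 33) :
    (2 : ZMod 6999999989) ^ e = 1 ↔ pm 2 6999999989 33 e = 1 := by
  rw [pm_eq _ _ _ _ he]
  have h : (2 : ZMod 6999999989) ^ e = ((2 ^ e : ℕ) : ZMod 6999999989) := by push_cast; rfl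
  have h' : (1 : ZMod 6999999989) = ((1 : ℕ) : ZMod 6999999989) := by push_cast; rfl
  rw [h, h', ZMod.natCast_eq_natCast_iff']

lemma prime_p : Nat.Prime 6999999989 := by
  have hf : (6999999989 - 1 : ℕ) = 2 ^ 2 * 19 * 373 * 246931 := by norm_num
  refine lucas_primality 6999999989 (2 : ZMod 6999999989) ?_ ?_
  · rw [zmod_pow _ (by norm_num)]
    decide +kernel
  · intro q hq hd
    have hd' : q ∣ 2 ^ 2 * 19 * 373 * 246931 := by rwa [← hf]
    have h2 : q = 2 ∨ q = 19 ∨ q = 373 ∨ q = 246931 := by
      rcases (Nat.Prime.dvd_mul hq).mp hd' with h | h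
      · rcases (Nat.Prime.dvd_mul hq).mp h with h | h
        · rcases (Nat.Prime.dvd_mul hq).mp h with h | h
          · left
            exact (Nat.prime_dvd_prime_iff_eq hq Nat.prime_two).mp (hq.dvd_of_dvd_pow h)
          · right; left
            exact (Nat.prime_dvd_prime_iff_eq hq (by norm_num)).mp h
        · right; right; left
          exact (Nat.prime_dvd_prime_iff_eq hq (by norm_num)).mp h
      · right; right; right
        exact (Nat.prime_dvd_prime_iff_eq hq (by norm_num)).mp h
    rcases h2 with h | h | h | h <;> subst h <;> rw [Ne, zmod_pow _ (by norm_num)] <;>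
      decide +kernel

lemma rho : IsRho 86 6999999989 := by
  refine ⟨prime_p, by unfold s; norm_num, fun q hq hs => ?_⟩
  by_contra hcon
  push Not at hcon
  obtain ⟨d, hd, h⟩ := check q (mem_cands 10 86 q (by omega) hs) hcon
  have h1 : d ∣ q := Nat.dvd_of_mod_eq_zero h
  rcases (Nat.dvd_prime hq).mp h1 with h2 | h2
  · subst h2
    revert hd
    decide
  · subst h2
    have h3 : d ≤ 6089 := by
      revert hd
      simp only [divs, List.mem_cons, List.not_mem_nil, or_false]
      omega
    have h4 := s_le 4 d (by omega)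
    omega

/-- `ρ 86 = 6999999989`; hence assertion (b), that `ρ k` ends in `99` for all `k > 38`, and assertion
(c), that `ρ k` ends in `999` for all `k > 59`, are both false. -/
theorem result : IsRho 86 6999999989 ∧
    ¬ (∀ k : ℕ, 38 < k → ∀ p : ℕ, IsRho k p → p % 100 = 99) ∧
    ¬ (∀ k : ℕ, 59 < k → ∀ p : ℕ, IsRho k p → p % 1000 = 999) := by
  refine ⟨rho, fun h => ?_, fun h => ?_⟩
  · have := h 86 (by norm_num) _ rho
    norm_num at this
  · have := h 86 (by norm_num) _ rho
    norm_num at this

end Pool.Agent.Results.MP_70678e_nt.AssertionsBAndCFail
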